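import Pool.Agent.Lib.P68998e.Double

/-!
Elements outside the span of a fan path in a binary configuration without a wheel minor.
-/

namespace Pool.Agent.Lib.P68998f

open Submodule Finset Pool.Agent.Lib.P68998c

universe u

section

variable {V : Type u} [AddCommGroup V] [Module (ZMod 2) V]

lemma push_path {k : ℕ} {E : Set V} {y : ℕ → V} (hy : FanPath E y k) {b : V} (hb : b ∈ E)
    (hby : b + y 0 ∈ E) (hbs : b ∉ span (ZMod 2) (Set.range fun i : Fin (k + 1) => y i)) :
    FanPath E (fun i => Nat.casesOn i b y) (k + 1) := by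
  refine ⟨?_, ?_, ?_⟩
  · intro i hi
    cases i with
    | zero => exact hb
    | succ i => exact hy.1 i (by omega)
  · intro i hi
    cases i with
    | zero => exact hby
    | succ i => exact hy.2.1 i (by omega)
  · have := (linearIndependent_finCons (K := ZMod 2) (x := b)
      (v := fun i : Fin (k + 1) => y i)).2 ⟨hy.2.2, hbs⟩
    convert this using 1
    funext i
    refine Fin.cases ?_ (fun j => ?_) i
    · rfl
    · rfl

lemma exists_map' {k : ℕ} {y : ℕ → V}
    (h : LinearIndependent (ZMod 2) (fun i : Fin (k + 1) => y i)) {x : V}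
    (hx : x ∉ span (ZMod 2) (Set.range fun i : Fin (k + 1) => y i)) {W : Type*} [AddCommGroup W]
    [Module (ZMod 2) W] (c : W) (w : ℕ → W) :
    ∃ φ : V →ₗ[ZMod 2] W, φ x = c ∧ ∀ p ≤ k, φ (y p) = w p := by
  have h1 : LinearIndependent (ZMod 2)
      (fun i : Fin (k + 1 + 1) => (Nat.casesOn (i : ℕ) x y : V)) := by
    have := (linearIndependent_finCons (K := ZMod 2) (x := x)
      (v := fun i : Fin (k + 1) => y i)).2 ⟨h, hx⟩
    convert this using 1
    funext i
    refine Fin.cases ?_ (fun j => ?_) i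
    · rfl
    · rfl
  obtain ⟨φ, hφ⟩ := exists_map (y := fun i => (Nat.casesOn i x y : V)) h1
    (fun p => (Nat.casesOn p c w : W))
  refine ⟨φ, ?_, fun p hp => ?_⟩
  · exact hφ 0 (by omega)
  · exact hφ (p + 1) (by omega)

lemma sum_symmDiff' (d : ℕ → V) (S T : Finset ℕ) :
    ∑ q ∈ symmDiff S T, d q = ∑ q ∈ S, d q + ∑ q ∈ T, d q := by
  have h1 : ∑ q ∈ symmDiff S T, d q = ∑ q ∈ S \ T, d q + ∑ q ∈ T \ S, d q := by
    rw [symmDiff_def, Finset.sup_eq_union, Finset.sum_union]
    exact disjoint_sdiff_sdiff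
  have h2 : ∑ q ∈ S, d q = ∑ q ∈ S \ T, d q + ∑ q ∈ S ∩ T, d q := by
    rw [← Finset.sum_sdiff (Finset.inter_subset_left : S ∩ T ⊆ S), Finset.sdiff_inter_self_left]
  have h3 : ∑ q ∈ T, d q = ∑ q ∈ T \ S, d q + ∑ q ∈ S ∩ T, d q := by
    rw [← Finset.sum_sdiff (Finset.inter_subset_right : S ∩ T ⊆ T), Finset.sdiff_inter_self_right]
  rw [h1, h2, h3]
  have h4 : ∑ q ∈ S \ T, d q + ∑ q ∈ S ∩ T, d q + (∑ q ∈ T \ S, d q + ∑ q ∈ S ∩ T, d q) =
      ∑ q ∈ S \ T, d q + ∑ q ∈ T \ S, d q + (∑ q ∈ S ∩ T, d q + ∑ q ∈ S ∩ T, d q) := by abel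
  rw [h4, ZModModule.add_self, add_zero]

/-- The window lemma. -/
lemma window {a : ℕ} (ha : 1 ≤ a) {E : Set V} (hW : ¬ HasWheel (a + 1) E) {k : ℕ} {y : ℕ → V}
    (hy : FanPath E y k) {x x' : V} (hxE : x ∈ E) (hx'E : x' ∈ E)
    (hx : x ∉ span (ZMod 2) (Set.range fun i : Fin (k + 1) => y i))
    {T : Finset ℕ} (hT : T ⊆ range k) (hxx : x + x' = ∑ q ∈ T, (y q + y (q + 1)))
    {i j : ℕ} (hi : i ∈ T) (hj : j ∈ T) : j < i + 2 * a := by
  classical
  by_contra hcon
  push Not at hcon
  have hik := Finset.mem_range.1 (hT hi)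
  have hjk := Finset.mem_range.1 (hT hj)
  by_cases hcard : a + 1 ≤ T.card
  · refine hW (wheel_of_path (k := k) (y := y) {x} ?_ hy.1 hy.2.1 ?_ T hT hcard x' hx'E ?_)
    · intro v hv
      rw [Set.mem_singleton_iff] at hv
      rw [hv]; exact hxE
    · intro w
      obtain ⟨φ, h1, h2⟩ := exists_map' hy.2.2 hx 0 w
      refine ⟨φ, ?_, h2⟩
      intro c hc
      rw [Set.mem_singleton_iff] at hc
      rw [hc, h1]
    · rw [← hxx]
      have h1 : x' + (x + x') = x + (x' + x') := by abel
      rw [h1, ZModModule.add_self, add_zero]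
      exact subset_span rfl
  · obtain ⟨k', hk'⟩ : ∃ k', j = i + 1 + k' := ⟨j - (i + 1), by omega⟩
    set Z : Finset ℕ := (range k').filter fun p => i + 1 + p ∉ T with hZ
    set Z' : Finset ℕ := (range k').filter fun p => i + 1 + p ∈ T with hZ'
    have hZcard : a + 1 ≤ Z.card := by
      have h1 : Z'.card + Z.card = k' := by
        rw [hZ, hZ', Finset.card_filter_add_card_filter_not, Finset.card_range]
      have h2 : Z'.card + 2 ≤ T.card := by
        have h3 : (Z'.image fun p => i + 1 + p).card = Z'.card :=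
          Finset.card_image_of_injective _ fun p q h => by simpa using h
        have h4 : Z'.image (fun p => i + 1 + p) ⊆ (T.erase i).erase j := by
          intro q hq
          rw [Finset.mem_image] at hq
          obtain ⟨p, hp, rfl⟩ := hq
          rw [hZ', Finset.mem_filter, Finset.mem_range] at hp
          rw [Finset.mem_erase, Finset.mem_erase]
          exact ⟨by omega, by omega, hp.2⟩
        have h5 := Finset.card_le_card h4
        rw [Finset.card_erase_of_mem (Finset.mem_erase.2 ⟨by omega, hj⟩),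
          Finset.card_erase_of_mem hi, h3] at h5
        have h6 : 2 ≤ T.card := by
          have : ({i, j} : Finset ℕ) ⊆ T := by
            intro q hq
            rw [Finset.mem_insert, Finset.mem_singleton] at hq
            rcases hq with rfl | rfl
            · exact hi
            · exact hj
          have h7 := Finset.card_le_card this
          rwa [Finset.card_pair (by omega)] at h7
        omega
      omega
    set A : Finset ℕ := T.filter fun q => q < i ∨ j < q with hA
    set M : Finset ℕ := T.filter fun q => i < q ∧ q < j with hM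
    have hTsum : ∑ q ∈ T, (y q + y (q + 1)) = ∑ q ∈ M, (y q + y (q + 1)) +
        ((y i + y (i + 1)) + ((y j + y (j + 1)) + ∑ q ∈ A, (y q + y (q + 1)))) := by
      rw [← Finset.sum_filter_add_sum_filter_not T (fun q => i < q ∧ q < j)]
      congr 1
      have h1 : T.filter (fun q => ¬ (i < q ∧ q < j)) = insert i (insert j A) := by
        ext q
        simp only [hA, Finset.mem_filter, Finset.mem_insert]
        constructor
        · rintro ⟨h2, h3⟩
          by_cases h4 : q = i
          · exact Or.inl h4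
          · by_cases h5 : q = j
            · exact Or.inr (Or.inl h5)
            · exact Or.inr (Or.inr ⟨h2, by omega⟩)
        · rintro (rfl | rfl | ⟨h2, h3⟩)
          · exact ⟨hi, by omega⟩
          · exact ⟨hj, by omega⟩
          · exact ⟨h2, by omega⟩
      rw [h1, Finset.sum_insert, Finset.sum_insert]
      · simp only [hA, Finset.mem_filter, not_and]
        intro _; omega
      · simp only [hA, Finset.mem_insert, Finset.mem_filter, not_or]
        exact ⟨by omega, by omega⟩
    have hMZ : ∑ q ∈ M, (y q + y (q + 1)) = ∑ p ∈ Z', (y (i + 1 + p) + y (i + 1 + (p + 1))) := by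
      have h1 : M = Z'.image fun p => i + 1 + p := by
        ext q
        simp only [hM, hZ', Finset.mem_filter, Finset.mem_image, Finset.mem_range]
        constructor
        · rintro ⟨h2, h3⟩
          refine ⟨q - (i + 1), ⟨by omega, ?_⟩, by omega⟩
          rw [show i + 1 + (q - (i + 1)) = q by omega]
          exact h2
        · rintro ⟨p, ⟨h2, h3⟩, rfl⟩
          exact ⟨h3, by omega⟩
      rw [h1, Finset.sum_image]
      · rfl
      · intro p _ q _ h
        simpa using h
    have hsum : ∑ p ∈ Z', (y (i + 1 + p) + y (i + 1 + (p + 1))) +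
        ∑ p ∈ Z, (y (i + 1 + p) + y (i + 1 + (p + 1))) = y (i + 1) + y j := by
      rw [hZ, hZ', Finset.sum_filter_add_sum_filter_not]
      have := sum_path (fun p => y (i + 1 + p)) k'
      rw [hk']
      exact this
    set C₀ : Set V := {v | v = x ∨ v = y i ∨ v = y (j + 1) ∨ ∃ q ∈ A, v = y q + y (q + 1)} with hC₀
    refine hW (wheel_of_path (k := k') (y := fun p => y (i + 1 + p)) C₀ ?_ (fun p hp =>
      hy.1 _ (by omega)) (fun p hp => hy.2.1 _ (by omega)) ?_ Z (Finset.filter_subset _ _) hZcard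
      x' hx'E ?_)
    · rintro v (rfl | rfl | rfl | ⟨q, hq, rfl⟩)
      · exact hxE
      · exact hy.1 _ (by omega)
      · exact hy.1 _ (by omega)
      · rw [hA, Finset.mem_filter] at hq
        exact hy.2.1 _ (Finset.mem_range.1 (hT hq.1))
    · intro w
      obtain ⟨φ, h1, h2⟩ := exists_map' hy.2.2 hx 0
        (fun q => if i + 1 ≤ q ∧ q ≤ j then w (q - (i + 1)) else 0)
      refine ⟨φ, ?_, ?_⟩
      · rintro v (rfl | rfl | rfl | ⟨q, hq, rfl⟩)
        · exact h1
        · rw [h2 _ (by omega), if_neg (by omega)]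
        · rw [h2 _ (by omega), if_neg (by omega)]
        · rw [hA, Finset.mem_filter] at hq
          have h3 := Finset.mem_range.1 (hT hq.1)
          rw [map_add, h2 _ (by omega), h2 _ (by omega), if_neg (by omega), if_neg (by omega),
            add_zero]
      · intro p hp
        rw [h2 _ (by omega), if_pos (by omega), show i + 1 + p - (i + 1) = p by omega]
    · have h1 : ∑ p ∈ Z, (y (i + 1 + p) + y (i + 1 + (p + 1))) =
          y (i + 1) + y j + ∑ q ∈ M, (y q + y (q + 1)) := by
        rw [hMZ, ← hsum]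
        have : ∀ u v : V, v = u + v + u := by
          intro u v
          have h2 : u + v + u = v + (u + u) := by abel
          rw [h2, ZModModule.add_self, add_zero]
        exact this _ _
      have h2 : ∑ q ∈ M, (y q + y (q + 1)) = x + x' +
          ((y i + y (i + 1)) + ((y j + y (j + 1)) + ∑ q ∈ A, (y q + y (q + 1)))) := by
        rw [hxx, hTsum]
        have : ∀ u v : V, u = u + v + v := by
          intro u v
          rw [add_assoc, ZModModule.add_self, add_zero]
        exact this _ _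
      show x' + ∑ p ∈ Z, (y (i + 1 + p) + y (i + 1 + (p + 1))) ∈ span (ZMod 2) C₀
      rw [h1, h2]
      have h3 : x' + (y (i + 1) + y j + (x + x' +
          ((y i + y (i + 1)) + ((y j + y (j + 1)) + ∑ q ∈ A, (y q + y (q + 1)))))) =
          (x + (y i + (y (j + 1) + ∑ q ∈ A, (y q + y (q + 1))))) +
          ((x' + x') + ((y (i + 1) + y (i + 1)) + (y j + y j))) := by abel
      rw [h3, ZModModule.add_self, ZModModule.add_self, ZModModule.add_self, add_zero, add_zero,
        add_zero]
      refine add_mem (subset_span (Or.inl rfl)) (add_mem (subset_span (Or.inr (Or.inl rfl)))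
        (add_mem (subset_span (Or.inr (Or.inr (Or.inl rfl)))) (sum_mem fun q hq =>
          subset_span (Or.inr (Or.inr (Or.inr ⟨q, hq, rfl⟩))))))

/-- One class of elements outside the path. -/
lemma class_card {a : ℕ} (ha : 1 ≤ a) [FiniteDimensional (ZMod 2) V] {E : Finset V}
    (h0 : (0 : V) ∉ E) (hW : ¬ HasWheel (a + 1) (E : Set V)) {k : ℕ} {y : ℕ → V}
    (hy : FanPath (E : Set V) y k) (A : Finset V) (hA : A ⊆ E)
    (hAy : ∀ x ∈ A, x ∉ span (ZMod 2) (Set.range fun i : Fin (k + 1) => y i))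
    (hAA : ∀ x ∈ A, ∀ x' ∈ A, ∃ T ⊆ range k, x + x' = ∑ q ∈ T, (y q + y (q + 1))) :
    A.card ≤ (a * 2 ^ a + 1) * (2 * a + 1) := by
  classical
  rcases A.eq_empty_or_nonempty with rfl | ⟨x₁, hx₁⟩
  · simp
  have hT' : ∀ x, ∃ T : Finset ℕ, x ∈ A → T ⊆ range k ∧ x + x₁ = ∑ q ∈ T, (y q + y (q + 1)) := by
    intro x
    by_cases hx : x ∈ A
    · obtain ⟨T, hT, hT'⟩ := hAA x hx x₁ hx₁
      exact ⟨T, fun _ => ⟨hT, hT'⟩⟩
    · exact ⟨∅, fun h => absurd h hx⟩
  choose T hT using hT'
  have hwin : ∃ m, ∀ x ∈ A, T x ⊆ Finset.Ico m (m + 2 * a) := by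
    by_cases hne : ∃ q, ∃ x ∈ A, q ∈ T x
    · obtain ⟨x', hx', hmx'⟩ := Nat.find_spec hne
      refine ⟨Nat.find hne, ?_⟩
      intro x hx q hq
      rw [Finset.mem_Ico]
      refine ⟨Nat.find_min' hne ⟨x, hx, hq⟩, ?_⟩
      set m := Nat.find hne with hm
      by_contra hcon
      have h1 : m ∉ T x := fun h => hcon
        (window ha hW hy (hA hx) (hA hx₁) (hAy x hx) (hT x hx).1 (hT x hx).2 h hq)
      have h2 : q ∉ T x' := fun h => hcon
        (window ha hW hy (hA hx') (hA hx₁) (hAy x' hx') (hT x' hx').1 (hT x' hx').2 hmx' h)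
      have h3 : x + x' = ∑ q ∈ symmDiff (T x) (T x'), (y q + y (q + 1)) := by
        rw [sum_symmDiff', ← (hT x hx).2, ← (hT x' hx').2]
        have : x + x₁ + (x' + x₁) = x + x' + (x₁ + x₁) := by abel
        rw [this, ZModModule.add_self, add_zero]
      have h4 : symmDiff (T x) (T x') ⊆ range k := by
        intro p hp
        rw [Finset.mem_symmDiff] at hp
        rcases hp with hp | hp
        · exact (hT x hx).1 hp.1
        · exact (hT x' hx').1 hp.1
      exact hcon (window ha hW hy (hA hx) (hA hx') (hAy x hx) h4 h3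
        (Finset.mem_symmDiff.2 (Or.inr ⟨hmx', h1⟩)) (Finset.mem_symmDiff.2 (Or.inl ⟨hq, h2⟩)))
    · refine ⟨0, ?_⟩
      intro x hx q hq
      exact absurd ⟨q, x, hx, hq⟩ hne
  obtain ⟨m, hm⟩ := hwin
  refine P68998e.density a (2 * a + 1) ha V A (fun h => h0 (hA h))
    (fun h => hW (h.mono (by exact_mod_cast hA))) ?_
  set G : Finset V := insert x₁ ((Finset.Ico m (m + 2 * a)).image fun q => y q + y (q + 1)) with hG
  have h1 : span (ZMod 2) (A : Set V) ≤ span (ZMod 2) (G : Set V) := by
    rw [span_le]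
    intro x hx
    rw [Finset.mem_coe] at hx
    have h2 : x = (∑ q ∈ T x, (y q + y (q + 1))) + x₁ := by
      rw [← (hT x hx).2, add_assoc, ZModModule.add_self, add_zero]
    rw [h2]
    refine add_mem (sum_mem fun q hq => subset_span ?_) (subset_span ?_)
    · rw [Finset.mem_coe, hG, Finset.mem_insert]
      exact Or.inr (Finset.mem_image_of_mem _ (hm x hx hq))
    · rw [Finset.mem_coe, hG]
      exact Finset.mem_insert_self _ _
  refine (Submodule.finrank_mono h1).trans ((finrank_span_finset_le_card G).trans ?_)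
  refine (Finset.card_insert_le _ _).trans ?_
  have := Finset.card_image_le (s := Finset.Ico m (m + 2 * a)) (f := fun q => y q + y (q + 1))
  rw [Nat.card_Ico] at this
  omega

/-- Elements outside a fan path which spans a subspace of codimension one. -/
lemma count {a : ℕ} (ha : 1 ≤ a) [FiniteDimensional (ZMod 2) V] {E : Finset V}
    (h0 : (0 : V) ∉ E) (hW : ¬ HasWheel (a + 1) (E : Set V)) {k : ℕ} {y : ℕ → V}
    (hy : FanPath (E : Set V) y k) (C : Finset V) (hC : C ⊆ E)
    (hCy : ∀ x ∈ C, x ∉ span (ZMod 2) (Set.range fun i : Fin (k + 1) => y i))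
    (hCC : ∀ x ∈ C, ∀ x' ∈ C, x + x' ∈ span (ZMod 2) (Set.range fun i : Fin (k + 1) => y i)) :
    C.card ≤ 2 * ((a * 2 ^ a + 1) * (2 * a + 1)) := by
  classical
  rcases C.eq_empty_or_nonempty with rfl | ⟨x₁, hx₁⟩
  · simp
  have key : ∀ (x x' c : V) (T T' : Finset ℕ), T ⊆ range k → T' ⊆ range k →
      x + x₁ = ∑ q ∈ T, (y q + y (q + 1)) + c → x' + x₁ = ∑ q ∈ T', (y q + y (q + 1)) + c →
      ∃ T ⊆ range k, x + x' = ∑ q ∈ T, (y q + y (q + 1)) := by
    intro x x' c T T' hT hT' h1 h2
    refine ⟨symmDiff T T', ?_, ?_⟩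
    · intro p hp
      rw [Finset.mem_symmDiff] at hp
      rcases hp with hp | hp
      · exact hT hp.1
      · exact hT' hp.1
    · rw [sum_symmDiff']
      have h3 : x + x' = (x + x₁) + (x' + x₁) + (x₁ + x₁) + (x₁ + x₁) := by
        have h4 : (x + x₁) + (x' + x₁) = x + x' + (x₁ + x₁) := by abel
        rw [h4, ZModModule.add_self]
        simp
      rw [h3, h1, h2, ZModModule.add_self]
      have h5 : ∀ u v : V, u + c + (v + c) + 0 + 0 = u + v + (c + c) := by
        intro u v; abel
      rw [h5, ZModModule.add_self, add_zero]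
  set A := C.filter fun x => ∃ T ⊆ range k, x + x₁ = ∑ q ∈ T, (y q + y (q + 1)) with hAdef
  set B := C.filter fun x => ¬ ∃ T ⊆ range k, x + x₁ = ∑ q ∈ T, (y q + y (q + 1)) with hBdef
  have hAB : A.card + B.card = C.card := Finset.card_filter_add_card_filter_not _
  have hAcard : A.card ≤ (a * 2 ^ a + 1) * (2 * a + 1) := by
    refine class_card ha h0 hW hy A ((Finset.filter_subset _ _).trans hC)
      (fun x hx => hCy x (Finset.filter_subset _ _ hx)) ?_
    intro x hx x' hx'
    obtain ⟨T, hT, h1⟩ := (Finset.mem_filter.1 hx).2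
    obtain ⟨T', hT', h2⟩ := (Finset.mem_filter.1 hx').2
    exact key x x' 0 T T' hT hT' (by rw [add_zero]; exact h1) (by rw [add_zero]; exact h2)
  have hBcard : B.card ≤ (a * 2 ^ a + 1) * (2 * a + 1) := by
    refine class_card ha h0 hW hy B ((Finset.filter_subset _ _).trans hC)
      (fun x hx => hCy x (Finset.filter_subset _ _ hx)) ?_
    intro x hx x' hx'
    have hx2 := Finset.mem_filter.1 hx
    have hx2' := Finset.mem_filter.1 hx'
    obtain ⟨T, hT, h1 | h1⟩ := mem_span_path (hCC x hx2.1 x₁ hx₁)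
    · exact absurd ⟨T, hT, h1⟩ hx2.2
    obtain ⟨T', hT', h2 | h2⟩ := mem_span_path (hCC x' hx2'.1 x₁ hx₁)
    · exact absurd ⟨T', hT', h2⟩ hx2'.2
    exact key x x' (y 0) T T' hT hT' h1 h2
  omega

end

end Pool.Agent.Lib.P68998f
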