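import Pool.Agent.Lib.P68998f.Count

/-!
Depth first search: a binary configuration without a wheel minor has a small cocycle missing any
given fan path.
-/

namespace Pool.Agent.Lib.P68998f

open Submodule Finset Pool.Agent.Lib.P68998c

universe u

section

variable {V : Type u} [AddCommGroup V] [Module (ZMod 2) V]

lemma zc (c : ZMod 2) : c = 0 ∨ c = 1 := by
  revert c; decide

/-- Two vectors with the same image modulo `e`. -/
lemma fib {e b b' : V} (hbb : (span (ZMod 2) {e}).mkQ b = (span (ZMod 2) {e}).mkQ b')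
    (hne : b' ≠ b) : b' = b + e := by
  have h1 : b + b' ∈ span (ZMod 2) {e} := by
    rw [← ZModModule.sub_eq_add, ← Quotient.mk_eq_zero, ← mkQ_apply, map_sub, sub_eq_zero]
    exact hbb
  rw [mem_span_singleton] at h1
  obtain ⟨c, hc⟩ := h1
  rcases zc c with rfl | rfl
  · exfalso
    rw [zero_smul] at hc
    apply hne
    have : b + b' + b' = b' := by rw [← hc, zero_add]
    rw [add_assoc, ZModModule.add_self, add_zero] at this
    exact this.symm
  · rw [one_smul] at hc
    rw [hc, ← add_assoc, ZModModule.add_self, zero_add]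

lemma finrank_map_eq' [FiniteDimensional (ZMod 2) V] {p : Submodule (ZMod 2) V} {e : V}
    (he : e ∈ p) (h0 : e ≠ 0) :
    Module.finrank (ZMod 2) (p.map (span (ZMod 2) {e}).mkQ) + 1 = Module.finrank (ZMod 2) p := by
  refine le_antisymm (finrank_map_lt he h0) ?_
  set f := (span (ZMod 2) {e}).mkQ.domRestrict p with hf
  have h1 := LinearMap.finrank_range_add_finrank_ker f
  have h2 : LinearMap.range f = p.map (span (ZMod 2) {e}).mkQ := by
    rw [hf, LinearMap.range_domRestrict]
  rw [h2] at h1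
  have h3 : Module.finrank (ZMod 2) (LinearMap.ker f) ≤ 1 := by
    have h4 : (LinearMap.ker f).map p.subtype ≤ span (ZMod 2) {e} := by
      rintro _ ⟨v, hv, rfl⟩
      rw [SetLike.mem_coe, LinearMap.mem_ker, hf, LinearMap.domRestrict_apply, mkQ_apply,
        Quotient.mk_eq_zero] at hv
      exact hv
    have h5 := Submodule.finrank_mono h4
    rw [Submodule.finrank_map_subtype_eq, finrank_span_singleton h0] at h5
    exact h5
  omega

/-- Small cocycles lift from the quotient by `e`. -/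
lemma lift_cocycle [DecidableEq V] {E : Finset V} {e : V}
    {E' : Finset (V ⧸ span (ZMod 2) {e})}
    (hE' : ∀ p, p ∈ E' ↔ p ≠ 0 ∧ ∃ x ∈ E, (span (ZMod 2) {e}).mkQ x = p)
    {g' : V ⧸ span (ZMod 2) {e} →ₗ[ZMod 2] ZMod 2}
    (hinj : ∀ x ∈ E, x + e ∈ E → g' ((span (ZMod 2) {e}).mkQ x) = 0) {N : ℕ}
    (h1 : (E'.filter fun p => g' p = 1).Nonempty) (h2 : (E'.filter fun p => g' p = 1).card ≤ N) :
    (E.filter fun x => (g'.comp (span (ZMod 2) {e}).mkQ) x = 1).Nonempty ∧
      (E.filter fun x => (g'.comp (span (ZMod 2) {e}).mkQ) x = 1).card ≤ N := by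
  constructor
  · obtain ⟨p, hp⟩ := h1
    rw [Finset.mem_filter, hE'] at hp
    obtain ⟨⟨-, x, hx, hxp⟩, hgp⟩ := hp
    exact ⟨x, Finset.mem_filter.2 ⟨hx, by rw [LinearMap.comp_apply, hxp, hgp]⟩⟩
  · refine le_trans (Finset.card_le_card_of_injOn (span (ZMod 2) {e}).mkQ ?_ ?_) h2
    · intro x hx
      rw [Finset.mem_coe, Finset.mem_filter, LinearMap.comp_apply] at hx
      rw [Finset.mem_coe, Finset.mem_filter, hE']
      refine ⟨⟨?_, x, hx.1, rfl⟩, hx.2⟩
      intro h0
      rw [h0, map_zero] at hx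
      exact zero_ne_one hx.2
    · intro x hx x' hx' hxx
      by_contra hne
      rw [Finset.mem_coe, Finset.mem_filter, LinearMap.comp_apply] at hx hx'
      have h3 := fib hxx (Ne.symm hne)
      have h4 := hinj x hx.1 (h3 ▸ hx'.1)
      rw [h4] at hx
      exact zero_ne_one hx.2

/-- The base case: the path spans a subspace of codimension one. -/
lemma dfs_base {a : ℕ} (ha : 1 ≤ a) [FiniteDimensional (ZMod 2) V] {E : Finset V}
    (h0 : (0 : V) ∉ E) (hW : ¬ HasWheel (a + 1) (E : Set V)) {k : ℕ} {y : ℕ → V}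
    (hy : FanPath (E : Set V) y k)
    (hr : Module.finrank (ZMod 2) (span (ZMod 2) (E : Set V)) = k + 1 + 1) :
    ∃ g : V →ₗ[ZMod 2] ZMod 2, (∀ i ≤ k, g (y i) = 0) ∧ (E.filter fun x => g x = 1).Nonempty ∧
      (E.filter fun x => g x = 1).card ≤ 2 * ((a * 2 ^ a + 1) * (2 * a + 1)) := by
  classical
  set P := span (ZMod 2) (Set.range fun i : Fin (k + 1) => y i) with hP
  have hPr : Module.finrank (ZMod 2) P = k + 1 := by
    rw [hP, finrank_span_eq_card hy.2.2, Fintype.card_fin]
  have hPE : P ≤ span (ZMod 2) (E : Set V) := by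
    rw [hP, span_le]
    rintro _ ⟨i, rfl⟩
    exact subset_span (hy.1 i (by omega))
  obtain ⟨x₁, hx₁, hx₁P⟩ : ∃ x ∈ E, x ∉ P := by
    by_contra hcon
    push Not at hcon
    have h1 : span (ZMod 2) (E : Set V) ≤ P := span_le.2 hcon
    have h2 := Submodule.finrank_mono h1
    omega
  have hCC : ∀ x ∈ E, x ∉ P → ∀ x' ∈ E, x' ∉ P → x + x' ∈ P := by
    intro x hx hxP x' hx' hx'P
    have h1 : P ⊔ span (ZMod 2) {x} ≤ span (ZMod 2) (E : Set V) :=
      sup_le hPE (span_le.2 (Set.singleton_subset_iff.2 (subset_span hx)))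
    have h2 : P < P ⊔ span (ZMod 2) {x} := by
      rw [lt_iff_le_and_ne]
      refine ⟨le_sup_left, fun h => hxP ?_⟩
      have h5 : x ∈ P ⊔ span (ZMod 2) {x} :=
        (le_sup_right : span (ZMod 2) {x} ≤ P ⊔ span (ZMod 2) {x}) (mem_span_singleton_self x)
      rw [← h] at h5
      exact h5
    have h3 := Submodule.finrank_lt_finrank_of_lt h2
    have h4 : P ⊔ span (ZMod 2) {x} = span (ZMod 2) (E : Set V) :=
      Submodule.eq_of_le_of_finrank_le h1 (by omega)
    have h5 : x' ∈ P ⊔ span (ZMod 2) {x} := by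
      rw [h4]; exact subset_span hx'
    obtain ⟨p, hp, v, hv, hpv⟩ := Submodule.mem_sup.1 h5
    obtain ⟨c, rfl⟩ := mem_span_singleton.1 hv
    rcases zc c with rfl | rfl
    · rw [zero_smul, add_zero] at hpv
      exact absurd (hpv ▸ hp) hx'P
    · rw [one_smul] at hpv
      have h6 : x + x' = p + (x + x) := by rw [← hpv]; abel
      rw [h6, ZModModule.add_self, add_zero]
      exact hp
  obtain ⟨g, hg1, hg0⟩ := exists_map' hy.2.2 hx₁P (1 : ZMod 2) (fun _ => 0)
  have hgP : P ≤ LinearMap.ker g := by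
    rw [hP, span_le]
    rintro _ ⟨i, rfl⟩
    exact hg0 i (by omega)
  refine ⟨g, hg0, ⟨x₁, Finset.mem_filter.2 ⟨hx₁, hg1⟩⟩, ?_⟩
  have hfil : ∀ x ∈ E.filter (fun x => g x = 1), x ∈ E ∧ x ∉ P := by
    intro x hx
    rw [Finset.mem_filter] at hx
    refine ⟨hx.1, fun h => ?_⟩
    have := hgP h
    rw [LinearMap.mem_ker, hx.2] at this
    exact one_ne_zero this
  exact count ha h0 hW hy _ (Finset.filter_subset _ _) (fun x hx => (hfil x hx).2)
    (fun x hx x' hx' => hCC x (hfil x hx).1 (hfil x hx).2 x' (hfil x' hx').1 (hfil x' hx').2)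

/-- The fan path left after contracting the first element. -/
lemma pop_path {k : ℕ} {E : Set V} {y : ℕ → V} (hy : FanPath E y (k + 1))
    {E' : Set (V ⧸ span (ZMod 2) {y 0})}
    (hE' : ∀ p, p ∈ E' ↔ p ≠ 0 ∧ ∃ x ∈ E, (span (ZMod 2) {y 0}).mkQ x = p) :
    FanPath E' (fun i => (span (ZMod 2) {y 0}).mkQ (y (i + 1))) k := by
  have h1 := linearIndependent_finSucc.1 hy.2.2
  have h2 : LinearIndependent (ZMod 2)
      (fun i : Fin (k + 1) => (span (ZMod 2) {y 0}).mkQ (y (i + 1))) := by
    have h3 : LinearIndependent (ZMod 2) (fun i : Fin (k + 1) => y (i + 1)) := by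
      convert h1.1 using 1
      funext i
      rw [Fin.tail]
      rfl
    refine h3.map (f := (span (ZMod 2) {y 0}).mkQ) ?_
    rw [Submodule.ker_mkQ]
    apply disjoint_span_singleton_of_notMem
    have h4 : y 0 ∉ span (ZMod 2) (Set.range fun i : Fin (k + 1) => y (i + 1)) := h1.2
    exact h4
  refine ⟨?_, ?_, h2⟩
  · intro i hi
    rw [hE']
    exact ⟨h2.ne_zero ⟨i, by omega⟩, _, hy.1 (i + 1) (by omega), rfl⟩
  · intro i hi
    rw [hE']
    refine ⟨?_, _, hy.2.1 (i + 1) (by omega), map_add _ _ _⟩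
    intro h3
    have h4 : (span (ZMod 2) {y 0}).mkQ (y (i + 1)) =
        (span (ZMod 2) {y 0}).mkQ (y (i + 1 + 1)) := by
      rw [← sub_eq_zero, ZModModule.sub_eq_add]
      exact h3
    have h5 := h2.injective (a₁ := ⟨i, by omega⟩) (a₂ := ⟨i + 1, by omega⟩) h4
    have := congrArg Fin.val h5
    simp at this

end

/-- Every fan path which does not nearly span is missed by a small cocycle. -/
theorem dfs (a : ℕ) (ha : 1 ≤ a) (u : ℕ) : ∀ (k : ℕ) (V : Type u) [AddCommGroup V]
    [Module (ZMod 2) V] [FiniteDimensional (ZMod 2) V] (E : Finset V) (y : ℕ → V), (0 : V) ∉ E →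
    ¬ HasWheel (a + 1) (E : Set V) → FanPath (E : Set V) y k →
    Module.finrank (ZMod 2) (span (ZMod 2) (E : Set V)) = k + 1 + (u + 1) →
    ∃ g : V →ₗ[ZMod 2] ZMod 2, (∀ i ≤ k, g (y i) = 0) ∧ (E.filter fun x => g x = 1).Nonempty ∧
      (E.filter fun x => g x = 1).card ≤ 2 * ((a * 2 ^ a + 1) * (2 * a + 1)) := by
  classical
  induction u with
  | zero =>
    intro k V _ _ _ E y h0 hW hy hr
    exact dfs_base ha h0 hW hy hr
  | succ u ihu =>
    intro k
    -- the push step
    have push : ∀ (k : ℕ) (V : Type u) [AddCommGroup V] [Module (ZMod 2) V]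
        [FiniteDimensional (ZMod 2) V] (E : Finset V) (y : ℕ → V), (0 : V) ∉ E →
        ¬ HasWheel (a + 1) (E : Set V) → FanPath (E : Set V) y k →
        Module.finrank (ZMod 2) (span (ZMod 2) (E : Set V)) = k + 1 + (u + 1 + 1) →
        (∃ b ∈ E, b + y 0 ∈ E ∧ b ∉ span (ZMod 2) (Set.range fun i : Fin (k + 1) => y i)) →
        ∃ g : V →ₗ[ZMod 2] ZMod 2, (∀ i ≤ k, g (y i) = 0) ∧
          (E.filter fun x => g x = 1).Nonempty ∧
          (E.filter fun x => g x = 1).card ≤ 2 * ((a * 2 ^ a + 1) * (2 * a + 1)) := by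
      intro k V _ _ _ E y h0 hW hy hr hb
      obtain ⟨b, hbE, hby, hbs⟩ := hb
      obtain ⟨g, hg, h1, h2⟩ := ihu (k + 1) V E (fun i => Nat.casesOn i b y) h0 hW
        (push_path hy (by simpa using hbE) (by simpa using hby) hbs) (by rw [hr]; ring)
      exact ⟨g, fun i hi => hg (i + 1) (by omega), h1, h2⟩
    induction k with
    | zero =>
      intro V _ _ _ E y h0 hW hy hr
      by_cases hb : ∃ b ∈ E, b + y 0 ∈ E ∧
          b ∉ span (ZMod 2) (Set.range fun i : Fin (0 + 1) => y i)
      · exact push 0 V E y h0 hW hy hr hb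
      push Not at hb
      have he : y 0 ∈ E := by simpa using hy.1 0 (by omega)
      have hen : y 0 ≠ 0 := fun h => h0 (h ▸ he)
      set E' : Finset (V ⧸ span (ZMod 2) {y 0}) :=
        (E.image (span (ZMod 2) {y 0}).mkQ).erase 0 with hE'
      have hE'm : ∀ p, p ∈ E' ↔ p ≠ 0 ∧ ∃ x ∈ E, (span (ZMod 2) {y 0}).mkQ x = p := by
        intro p; rw [hE', Finset.mem_erase, Finset.mem_image]
      have hsub : (E' : Set (V ⧸ span (ZMod 2) {y 0})) ⊆
          (span (ZMod 2) {y 0}).mkQ '' (E : Set V) := by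
        intro p hp
        rw [Finset.mem_coe, hE'm] at hp
        exact hp.2
      have hspan : span (ZMod 2) (E' : Set (V ⧸ span (ZMod 2) {y 0})) =
          (span (ZMod 2) (E : Set V)).map (span (ZMod 2) {y 0}).mkQ := by
        rw [hE', Finset.coe_erase, Submodule.span_sdiff_singleton_zero, Finset.coe_image,
          Submodule.map_span]
      have hr' := finrank_map_eq' (p := span (ZMod 2) (E : Set V)) (subset_span he) hen
      rw [← hspan] at hr'
      have hne : E'.Nonempty := by
        rw [Finset.nonempty_iff_ne_empty]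
        intro h
        rw [h, Finset.coe_empty, span_empty, finrank_bot] at hr'
        omega
      obtain ⟨b, hb'⟩ := hne
      have hb0 : b ≠ 0 := ((hE'm b).1 hb').1
      obtain ⟨g', hg', h1, h2⟩ := ihu 0 _ E' (fun _ => b) (fun h => ((hE'm 0).1 h).1 rfl)
        (fun h => hW (hasWheel_of_quotient (by simpa using he) hsub h))
        ⟨fun _ _ => by simpa using hb', fun i hi => absurd hi (by omega), by
          have : Subsingleton (Fin (0 + 1)) := inferInstanceAs (Subsingleton (Fin 1))
          exact LinearIndependent.of_subsingleton 0 hb0⟩ (by omega)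
      have hker : ∀ x ∈ span (ZMod 2) (Set.range fun i : Fin (0 + 1) => y i),
          g' ((span (ZMod 2) {y 0}).mkQ x) = 0 := by
        intro x hx
        have h3 : span (ZMod 2) (Set.range fun i : Fin (0 + 1) => y i) ≤ span (ZMod 2) {y 0} := by
          rw [span_le]
          rintro _ ⟨i, rfl⟩
          have : (i : ℕ) = 0 := by omega
          simp only [this]
          exact mem_span_singleton_self _
        rw [mkQ_apply, (Quotient.mk_eq_zero _).2 (h3 hx), map_zero]
      obtain ⟨h3, h4⟩ := lift_cocycle (g' := g') hE'm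
        (fun x hx hx' => hker x (hb x hx hx')) h1 h2
      refine ⟨g'.comp (span (ZMod 2) {y 0}).mkQ, ?_, h3, h4⟩
      intro i hi
      have : i = 0 := by omega
      subst this
      exact hker _ (subset_span ⟨0, rfl⟩)
    | succ k ihk =>
      intro V _ _ _ E y h0 hW hy hr
      by_cases hb : ∃ b ∈ E, b + y 0 ∈ E ∧
          b ∉ span (ZMod 2) (Set.range fun i : Fin (k + 1 + 1) => y i)
      · exact push (k + 1) V E y h0 hW hy hr hb
      push Not at hb
      have he : y 0 ∈ E := by simpa using hy.1 0 (by omega)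
      have hen : y 0 ≠ 0 := fun h => h0 (h ▸ he)
      set E' : Finset (V ⧸ span (ZMod 2) {y 0}) :=
        (E.image (span (ZMod 2) {y 0}).mkQ).erase 0 with hE'
      have hE'm : ∀ p, p ∈ E' ↔ p ≠ 0 ∧ ∃ x ∈ E, (span (ZMod 2) {y 0}).mkQ x = p := by
        intro p; rw [hE', Finset.mem_erase, Finset.mem_image]
      have hsub : (E' : Set (V ⧸ span (ZMod 2) {y 0})) ⊆
          (span (ZMod 2) {y 0}).mkQ '' (E : Set V) := by
        intro p hp
        rw [Finset.mem_coe, hE'm] at hp
        exact hp.2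
      have hspan : span (ZMod 2) (E' : Set (V ⧸ span (ZMod 2) {y 0})) =
          (span (ZMod 2) (E : Set V)).map (span (ZMod 2) {y 0}).mkQ := by
        rw [hE', Finset.coe_erase, Submodule.span_sdiff_singleton_zero, Finset.coe_image,
          Submodule.map_span]
      have hr' := finrank_map_eq' (p := span (ZMod 2) (E : Set V)) (subset_span he) hen
      rw [← hspan] at hr'
      obtain ⟨g', hg', h1, h2⟩ := ihk _ E' (fun i => (span (ZMod 2) {y 0}).mkQ (y (i + 1)))
        (fun h => ((hE'm 0).1 h).1 rfl)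
        (fun h => hW (hasWheel_of_quotient (by simpa using he) hsub h))
        (pop_path hy (by
          intro p
          rw [Finset.mem_coe, hE'm]
          simp only [Finset.mem_coe])) (by omega)
      have hker : span (ZMod 2) (Set.range fun i : Fin (k + 1 + 1) => y i) ≤
          LinearMap.ker (g'.comp (span (ZMod 2) {y 0}).mkQ) := by
        rw [span_le]
        rintro _ ⟨i, rfl⟩
        rw [SetLike.mem_coe, LinearMap.mem_ker, LinearMap.comp_apply]
        rcases Nat.eq_zero_or_pos (i : ℕ) with h | h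
        · simp only [h]
          rw [mkQ_apply, (Quotient.mk_eq_zero _).2 (mem_span_singleton_self _), map_zero]
        · have h3 := hg' ((i : ℕ) - 1) (by omega)
          rw [show (i : ℕ) - 1 + 1 = i by omega] at h3
          exact h3
      obtain ⟨h3, h4⟩ := lift_cocycle (g' := g') hE'm
        (fun x hx hx' => hker (hb x hx hx')) h1 h2
      refine ⟨g'.comp (span (ZMod 2) {y 0}).mkQ, ?_, h3, h4⟩
      intro i hi
      exact hker (subset_span ⟨⟨i, by omega⟩, rfl⟩)

/-- A nonempty binary configuration without a wheel minor with `a + 2` spokes has a nonempty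
cocycle with at most `2 (a 2 ^ a + 1) (2 a + 1)` elements. -/
theorem small_cocircuit (a : ℕ) (ha : 1 ≤ a) (V : Type u) [AddCommGroup V]
    [Module (ZMod 2) V] [FiniteDimensional (ZMod 2) V] (X : Finset V)
    (h0 : (0 : V) ∉ X) (hX : X.Nonempty) (hW : ¬ HasWheel (a + 1) (X : Set V)) :
    ∃ f : V →ₗ[ZMod 2] ZMod 2, (X.filter fun x => f x = 1).Nonempty ∧
      (X.filter fun x => f x = 1).card ≤ 2 * ((a * 2 ^ a + 1) * (2 * a + 1)) := by
  classical
  obtain ⟨e, he⟩ := hX
  have hen : e ≠ 0 := fun h => h0 (h ▸ he)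
  have hy : FanPath (X : Set V) (fun _ => e) 0 := by
    refine ⟨fun _ _ => by simpa using he, fun i hi => absurd hi (by omega), ?_⟩
    have : Subsingleton (Fin (0 + 1)) := inferInstanceAs (Subsingleton (Fin 1))
    exact LinearIndependent.of_subsingleton 0 hen
  have hle : 1 ≤ Module.finrank (ZMod 2) (span (ZMod 2) (X : Set V)) := by
    have h1 : span (ZMod 2) {e} ≤ span (ZMod 2) (X : Set V) :=
      span_mono (Set.singleton_subset_iff.2 he)
    have h2 := Submodule.finrank_mono h1
    rwa [finrank_span_singleton hen] at h2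
  obtain ⟨u, hu⟩ : ∃ u, Module.finrank (ZMod 2) (span (ZMod 2) (X : Set V)) = 1 + u :=
    ⟨Module.finrank (ZMod 2) (span (ZMod 2) (X : Set V)) - 1, by omega⟩
  rcases u with _ | u
  · -- rank one
    have h1 : ∀ x ∈ X, x = e := by
      intro x hx
      have h2 : span (ZMod 2) {e} = span (ZMod 2) (X : Set V) :=
        Submodule.eq_of_le_of_finrank_le (span_mono (Set.singleton_subset_iff.2 he))
          (by rw [hu, finrank_span_singleton hen])
      have h3 : x ∈ span (ZMod 2) {e} := by rw [h2]; exact subset_span hx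
      obtain ⟨c, hc⟩ := mem_span_singleton.1 h3
      rcases zc c with rfl | rfl
      · rw [zero_smul] at hc
        exact absurd (hc ▸ hx) h0
      · rw [one_smul] at hc
        exact hc.symm
    obtain ⟨f, hf⟩ : ∃ f : V →ₗ[ZMod 2] ZMod 2, f e = 1 := by
      by_contra hcon
      push Not at hcon
      apply hen
      rw [← Module.forall_dual_apply_eq_zero_iff (ZMod 2)]
      intro f
      rcases zc (f e) with h | h
      · exact h
      · exact absurd h (hcon f)
    refine ⟨f, ⟨e, Finset.mem_filter.2 ⟨he, hf⟩⟩, ?_⟩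
    have h2 : (X.filter fun x => f x = 1) ⊆ {e} := by
      intro x hx
      rw [Finset.mem_singleton]
      exact h1 x (Finset.mem_filter.1 hx).1
    have h3 := Finset.card_le_card h2
    rw [Finset.card_singleton] at h3
    have h4 : 1 ≤ (a * 2 ^ a + 1) * (2 * a + 1) := Nat.mul_pos (by omega) (by omega)
    omega
  · obtain ⟨g, -, h1, h2⟩ := dfs a ha u 0 V X (fun _ => e) h0 hW hy (by rw [hu])
    exact ⟨g, h1, h2⟩

/-- `R = a + 1`: the cocycle has fewer than `2 R ^ 2 2 ^ R` elements. -/
theorem numeric (a : ℕ) :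
    2 * ((a * 2 ^ a + 1) * (2 * a + 1)) < 2 ^ (a + 2 + 2 * Nat.clog 2 (a + 1)) := by
  have h1 : (a + 1) ^ 2 ≤ 2 ^ (2 * Nat.clog 2 (a + 1)) := by
    rw [mul_comm 2, pow_mul]
    exact Nat.pow_le_pow_left (Nat.le_pow_clog (by norm_num) _) 2
  have h2 : 2 ^ (a + 2 + 2 * Nat.clog 2 (a + 1)) =
      4 * 2 ^ a * 2 ^ (2 * Nat.clog 2 (a + 1)) := by
    rw [pow_add, pow_add]
    ring
  rw [h2]
  refine lt_of_lt_of_le ?_ (Nat.mul_le_mul_left _ h1)
  have h3 : 1 ≤ 2 ^ a := Nat.one_le_two_pow
  calc 2 * ((a * 2 ^ a + 1) * (2 * a + 1)) ≤ 2 * ((a * 2 ^ a + 2 ^ a) * (2 * a + 1)) :=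
        Nat.mul_le_mul_left _ (Nat.mul_le_mul_right _ (by omega))
    _ < 2 * ((a * 2 ^ a + 2 ^ a) * (2 * a + 2)) := by
        refine Nat.mul_lt_mul_of_pos_left ?_ (by norm_num)
        exact Nat.mul_lt_mul_of_pos_left (by omega) (by omega)
    _ = 4 * 2 ^ a * (a + 1) ^ 2 := by ring

end Pool.Agent.Lib.P68998f
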