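import Pool.Agent.Lib.P68998f.Dfs

/-!
Generic form of the depth first search: the bound `N` for the case of codimension one is a
hypothesis (`Base`).
-/

namespace Pool.Agent.Lib.P68998f

open Submodule Finset Pool.Agent.Lib.P68998c

universe u

/-- The case of codimension one. -/
def Base (a N : ℕ) : Prop :=
  ∀ (k : ℕ) (V : Type u) [AddCommGroup V] [Module (ZMod 2) V] [FiniteDimensional (ZMod 2) V]
    (E : Finset V) (y : ℕ → V), (0 : V) ∉ E → ¬ HasWheel (a + 1) (E : Set V) →
    FanPath (E : Set V) y k →
    Module.finrank (ZMod 2) (span (ZMod 2) (E : Set V)) = k + 1 + 1 →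
    ∃ g : V →ₗ[ZMod 2] ZMod 2, (∀ i ≤ k, g (y i) = 0) ∧ (E.filter fun x => g x = 1).Nonempty ∧
      (E.filter fun x => g x = 1).card ≤ N

/-- Every fan path which does not nearly span is missed by a small cocycle, given the case of
codimension one. -/
theorem dfs_gen (a N : ℕ) (hbase : Base.{u} a N) (u : ℕ) : ∀ (k : ℕ) (V : Type u) [AddCommGroup V]
    [Module (ZMod 2) V] [FiniteDimensional (ZMod 2) V] (E : Finset V) (y : ℕ → V), (0 : V) ∉ E →
    ¬ HasWheel (a + 1) (E : Set V) → FanPath (E : Set V) y k →
    Module.finrank (ZMod 2) (span (ZMod 2) (E : Set V)) = k + 1 + (u + 1) →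
    ∃ g : V →ₗ[ZMod 2] ZMod 2, (∀ i ≤ k, g (y i) = 0) ∧ (E.filter fun x => g x = 1).Nonempty ∧
      (E.filter fun x => g x = 1).card ≤ N := by
  classical
  induction u with
  | zero =>
    intro k V _ _ _ E y h0 hW hy hr
    exact hbase k V E y h0 hW hy hr
  | succ u ihu =>
    intro k
    -- the push step
    have push : ∀ (k : ℕ) (V : Type u) [AddCommGroup V] [Module (ZMod 2) V]
        [FiniteDimensional (ZMod 2) V] (E : Finset V) (y : ℕ → V), (0 : V) ∉ E →
        ¬ HasWheel (a + 1) (E : Set V) → FanPath (E : Set V) y k →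
        Module.finrank (ZMod 2) (span (ZMod 2) (E : Set V)) = k + 1 + (u + 1 + 1) →
        (∃ b ∈ E, b + y 0 ∈ E ∧ b ∉ span (ZMod 2) (Set.range fun i : Fin (k + 1) => y i)) →
        ∃ g : V →ₗ[ZMod 2] ZMod 2, (∀ i ≤ k, g (y i) = 0) ∧
          (E.filter fun x => g x = 1).Nonempty ∧
          (E.filter fun x => g x = 1).card ≤ N := by
      intro k V _ _ _ E y h0 hW hy hr hb
      obtain ⟨b, hbE, hby, hbs⟩ := hb
      obtain ⟨g, hg, h1, h2⟩ := ihu (k + 1) V E (fun i => Nat.casesOn i b y) h0 hW
        (push_path hy (by simpa using hbE) (by simpa using hby) hbs) (by rw [hr]; ring)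
      exact ⟨g, fun i hi => hg (i + 1) (by omega), h1, h2⟩
    induction k with
    | zero =>
      intro V _ _ _ E y h0 hW hy hr
      by_cases hb : ∃ b ∈ E, b + y 0 ∈ E ∧
          b ∉ span (ZMod 2) (Set.range fun i : Fin (0 + 1) => y i)
      · exact push 0 V E y h0 hW hy hr hb
      push Not at hb
      have he : y 0 ∈ E := by simpa using hy.1 0 (by omega)
      have hen : y 0 ≠ 0 := fun h => h0 (h ▸ he)
      set E' : Finset (V ⧸ span (ZMod 2) {y 0}) :=
        (E.image (span (ZMod 2) {y 0}).mkQ).erase 0 with hE'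
      have hE'm : ∀ p, p ∈ E' ↔ p ≠ 0 ∧ ∃ x ∈ E, (span (ZMod 2) {y 0}).mkQ x = p := by
        intro p; rw [hE', Finset.mem_erase, Finset.mem_image]
      have hsub : (E' : Set (V ⧸ span (ZMod 2) {y 0})) ⊆
          (span (ZMod 2) {y 0}).mkQ '' (E : Set V) := by
        intro p hp
        rw [Finset.mem_coe, hE'm] at hp
        exact hp.2
      have hspan : span (ZMod 2) (E' : Set (V ⧸ span (ZMod 2) {y 0})) =
          (span (ZMod 2) (E : Set V)).map (span (ZMod 2) {y 0}).mkQ := by
        rw [hE', Finset.coe_erase, Submodule.span_sdiff_singleton_zero, Finset.coe_image,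
          Submodule.map_span]
      have hr' := finrank_map_eq' (p := span (ZMod 2) (E : Set V)) (subset_span he) hen
      rw [← hspan] at hr'
      have hne : E'.Nonempty := by
        rw [Finset.nonempty_iff_ne_empty]
        intro h
        rw [h, Finset.coe_empty, span_empty, finrank_bot] at hr'
        omega
      obtain ⟨b, hb'⟩ := hne
      have hb0 : b ≠ 0 := ((hE'm b).1 hb').1
      obtain ⟨g', hg', h1, h2⟩ := ihu 0 _ E' (fun _ => b) (fun h => ((hE'm 0).1 h).1 rfl)
        (fun h => hW (hasWheel_of_quotient (by simpa using he) hsub h))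
        ⟨fun _ _ => by simpa using hb', fun i hi => absurd hi (by omega), by
          have : Subsingleton (Fin (0 + 1)) := inferInstanceAs (Subsingleton (Fin 1))
          exact LinearIndependent.of_subsingleton 0 hb0⟩ (by omega)
      have hker : ∀ x ∈ span (ZMod 2) (Set.range fun i : Fin (0 + 1) => y i),
          g' ((span (ZMod 2) {y 0}).mkQ x) = 0 := by
        intro x hx
        have h3 : span (ZMod 2) (Set.range fun i : Fin (0 + 1) => y i) ≤ span (ZMod 2) {y 0} := by
          rw [span_le]
          rintro _ ⟨i, rfl⟩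
          have : (i : ℕ) = 0 := by omega
          simp only [this]
          exact mem_span_singleton_self _
        rw [mkQ_apply, (Quotient.mk_eq_zero _).2 (h3 hx), map_zero]
      obtain ⟨h3, h4⟩ := lift_cocycle (g' := g') hE'm
        (fun x hx hx' => hker x (hb x hx hx')) h1 h2
      refine ⟨g'.comp (span (ZMod 2) {y 0}).mkQ, ?_, h3, h4⟩
      intro i hi
      have : i = 0 := by omega
      subst this
      exact hker _ (subset_span ⟨0, rfl⟩)
    | succ k ihk =>
      intro V _ _ _ E y h0 hW hy hr
      by_cases hb : ∃ b ∈ E, b + y 0 ∈ E ∧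
          b ∉ span (ZMod 2) (Set.range fun i : Fin (k + 1 + 1) => y i)
      · exact push (k + 1) V E y h0 hW hy hr hb
      push Not at hb
      have he : y 0 ∈ E := by simpa using hy.1 0 (by omega)
      have hen : y 0 ≠ 0 := fun h => h0 (h ▸ he)
      set E' : Finset (V ⧸ span (ZMod 2) {y 0}) :=
        (E.image (span (ZMod 2) {y 0}).mkQ).erase 0 with hE'
      have hE'm : ∀ p, p ∈ E' ↔ p ≠ 0 ∧ ∃ x ∈ E, (span (ZMod 2) {y 0}).mkQ x = p := by
        intro p; rw [hE', Finset.mem_erase, Finset.mem_image]
      have hsub : (E' : Set (V ⧸ span (ZMod 2) {y 0})) ⊆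
          (span (ZMod 2) {y 0}).mkQ '' (E : Set V) := by
        intro p hp
        rw [Finset.mem_coe, hE'm] at hp
        exact hp.2
      have hspan : span (ZMod 2) (E' : Set (V ⧸ span (ZMod 2) {y 0})) =
          (span (ZMod 2) (E : Set V)).map (span (ZMod 2) {y 0}).mkQ := by
        rw [hE', Finset.coe_erase, Submodule.span_sdiff_singleton_zero, Finset.coe_image,
          Submodule.map_span]
      have hr' := finrank_map_eq' (p := span (ZMod 2) (E : Set V)) (subset_span he) hen
      rw [← hspan] at hr'
      obtain ⟨g', hg', h1, h2⟩ := ihk _ E' (fun i => (span (ZMod 2) {y 0}).mkQ (y (i + 1)))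
        (fun h => ((hE'm 0).1 h).1 rfl)
        (fun h => hW (hasWheel_of_quotient (by simpa using he) hsub h))
        (pop_path hy (by
          intro p
          rw [Finset.mem_coe, hE'm]
          simp only [Finset.mem_coe])) (by omega)
      have hker : span (ZMod 2) (Set.range fun i : Fin (k + 1 + 1) => y i) ≤
          LinearMap.ker (g'.comp (span (ZMod 2) {y 0}).mkQ) := by
        rw [span_le]
        rintro _ ⟨i, rfl⟩
        rw [SetLike.mem_coe, LinearMap.mem_ker, LinearMap.comp_apply]
        rcases Nat.eq_zero_or_pos (i : ℕ) with h | h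
        · simp only [h]
          rw [mkQ_apply, (Quotient.mk_eq_zero _).2 (mem_span_singleton_self _), map_zero]
        · have h3 := hg' ((i : ℕ) - 1) (by omega)
          rw [show (i : ℕ) - 1 + 1 = i by omega] at h3
          exact h3
      obtain ⟨h3, h4⟩ := lift_cocycle (g' := g') hE'm
        (fun x hx hx' => hker (hb x hx hx')) h1 h2
      refine ⟨g'.comp (span (ZMod 2) {y 0}).mkQ, ?_, h3, h4⟩
      intro i hi
      exact hker (subset_span ⟨⟨i, by omega⟩, rfl⟩)

/-- A nonempty binary configuration without a wheel minor with `a + 2` spokes has a nonempty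
cocycle with at most `N` elements, given the case of codimension one. -/
theorem small_cocircuit_gen (a N : ℕ) (hN : 1 ≤ N) (hbase : Base.{u} a N) (V : Type u) [AddCommGroup V]
    [Module (ZMod 2) V] [FiniteDimensional (ZMod 2) V] (X : Finset V)
    (h0 : (0 : V) ∉ X) (hX : X.Nonempty) (hW : ¬ HasWheel (a + 1) (X : Set V)) :
    ∃ f : V →ₗ[ZMod 2] ZMod 2, (X.filter fun x => f x = 1).Nonempty ∧
      (X.filter fun x => f x = 1).card ≤ N := by
  classical
  obtain ⟨e, he⟩ := hX
  have hen : e ≠ 0 := fun h => h0 (h ▸ he)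
  have hy : FanPath (X : Set V) (fun _ => e) 0 := by
    refine ⟨fun _ _ => by simpa using he, fun i hi => absurd hi (by omega), ?_⟩
    have : Subsingleton (Fin (0 + 1)) := inferInstanceAs (Subsingleton (Fin 1))
    exact LinearIndependent.of_subsingleton 0 hen
  have hle : 1 ≤ Module.finrank (ZMod 2) (span (ZMod 2) (X : Set V)) := by
    have h1 : span (ZMod 2) {e} ≤ span (ZMod 2) (X : Set V) :=
      span_mono (Set.singleton_subset_iff.2 he)
    have h2 := Submodule.finrank_mono h1
    rwa [finrank_span_singleton hen] at h2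
  obtain ⟨u, hu⟩ : ∃ u, Module.finrank (ZMod 2) (span (ZMod 2) (X : Set V)) = 1 + u :=
    ⟨Module.finrank (ZMod 2) (span (ZMod 2) (X : Set V)) - 1, by omega⟩
  rcases u with _ | u
  · -- rank one
    have h1 : ∀ x ∈ X, x = e := by
      intro x hx
      have h2 : span (ZMod 2) {e} = span (ZMod 2) (X : Set V) :=
        Submodule.eq_of_le_of_finrank_le (span_mono (Set.singleton_subset_iff.2 he))
          (by rw [hu, finrank_span_singleton hen])
      have h3 : x ∈ span (ZMod 2) {e} := by rw [h2]; exact subset_span hx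
      obtain ⟨c, hc⟩ := mem_span_singleton.1 h3
      rcases zc c with rfl | rfl
      · rw [zero_smul] at hc
        exact absurd (hc ▸ hx) h0
      · rw [one_smul] at hc
        exact hc.symm
    obtain ⟨f, hf⟩ : ∃ f : V →ₗ[ZMod 2] ZMod 2, f e = 1 := by
      by_contra hcon
      push Not at hcon
      apply hen
      rw [← Module.forall_dual_apply_eq_zero_iff (ZMod 2)]
      intro f
      rcases zc (f e) with h | h
      · exact h
      · exact absurd h (hcon f)
    refine ⟨f, ⟨e, Finset.mem_filter.2 ⟨he, hf⟩⟩, ?_⟩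
    have h2 : (X.filter fun x => f x = 1) ⊆ {e} := by
      intro x hx
      rw [Finset.mem_singleton]
      exact h1 x (Finset.mem_filter.1 hx).1
    have h3 := Finset.card_le_card h2
    rw [Finset.card_singleton] at h3
    omega
  · obtain ⟨g, -, h1, h2⟩ := dfs_gen a N hbase u 0 V X (fun _ => e) h0 hW hy (by rw [hu])
    exact ⟨g, h1, h2⟩

end Pool.Agent.Lib.P68998f
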